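import Pool.Agent.helper76.FP.Spec

/-!
# Row fp:FIN (MP_bf63dc_nt), spec Pool/Agent/helper76/FP/Spec.lean: a maximal family gives the exceptional set
-/

set_option autoImplicit false

namespace Pool.Agent.FP

open Finset
open Pool.Agent.FR (mean)
open Pool.Agent.AT (Qk Pair)
open Pool.Agent.HF (Om TC)
open Pool.Agent.DP (Fm PrE CORE2_stmt)

theorem FIN (hENU : ENU_stmt) : FIN_stmt := by
  classical
  intro k hk
  obtain ⟨C, hC, h1⟩ := hENU k hk
  have hk0 : (0 : ℝ) < k := by exact_mod_cast hk
  refine ⟨k ^ 2 * C, by positivity, fun ε hε hε1 => ?_⟩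
  obtain ⟨P, hP⟩ : ∃ P : ℕ → Prop, P = fun N => ∃ s : Fin N → Fin k → ℕ, Fam ε N s := ⟨_, rfl⟩
  have hP0 : P 0 := by
    rw [hP]
    refine ⟨fun τ => τ.elim0, fun τ => τ.elim0, fun τ => τ.elim0, fun τ => τ.elim0, fun τ => τ.elim0⟩
  have hPB : ∀ N, P N → N ≤ ⌊C / ε ^ 4⌋₊ := by
    intro N hN
    rw [hP] at hN
    obtain ⟨s, hs⟩ := hN
    exact Nat.le_floor (h1 ε hε hε1 N s hs)
  obtain ⟨N, hN⟩ : ∃ N, N = Nat.findGreatest P ⌊C / ε ^ 4⌋₊ := ⟨_, rfl⟩
  have hPN : P N := by
    rw [hN]
    exact Nat.findGreatest_spec (Nat.zero_le _) hP0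
  have hmax : ∀ N', P N' → N' ≤ N := by
    intro N' hN'
    rw [hN]
    exact Nat.le_findGreatest (hPB N' hN') hN'
  rw [hP] at hPN
  obtain ⟨s, hs⟩ := hPN
  obtain ⟨E, hE⟩ : ∃ E : Finset (ℕ × ℕ), E = (univ : Finset (Fin N × Fin k × Fin k)).image (fun z => rd (s z.1 z.2.1) (s z.1 z.2.2)) := ⟨_, rfl⟩
  have hEmem : ∀ τ i j, rd (s τ i) (s τ j) ∈ E := by
    intro τ i j
    rw [hE, mem_image]
    exact ⟨(τ, i, j), mem_univ _, rfl⟩
  refine ⟨E, ?_, ?_⟩
  · have h2 : E.card ≤ N * (k * k) := by
      rw [hE]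
      refine card_image_le.trans (le_of_eq ?_)
      rw [card_univ, Fintype.card_prod, Fintype.card_prod, Fintype.card_fin, Fintype.card_fin]
    have h3 := h1 ε hε hε1 N s hs
    calc (E.card : ℝ) ≤ ((N * (k * k) : ℕ) : ℝ) := by exact_mod_cast h2
      _ = k ^ 2 * N := by push_cast; ring
      _ ≤ k ^ 2 * (C / ε ^ 4) := mul_le_mul_of_nonneg_left h3 (by positivity)
      _ = k ^ 2 * C / ε ^ 4 := by ring
  · intro t ht htinj htE
    by_contra hcon
    have hbad : BadT ε t := by
      intro S hS
      by_contra h2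
      apply hcon
      refine ⟨S, hS, fun i hi j hj hij => ?_⟩
      by_contra h3
      exact h2 ⟨i, hi, j, hj, hij, h3⟩
    obtain ⟨f1, f2, f3, f4⟩ := hs
    have hfam : P (N + 1) := by
      rw [hP]
      refine ⟨Fin.cons t s, ?_, ?_, ?_, ?_⟩
      · intro τ
        refine Fin.cases ?_ (fun x => ?_) τ
        · rw [Fin.cons_zero]
          exact ht
        · rw [Fin.cons_succ]
          exact f1 x
      · intro τ
        refine Fin.cases ?_ (fun x => ?_) τ
        · rw [Fin.cons_zero]
          exact htinj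
        · rw [Fin.cons_succ]
          exact f2 x
      · intro τ
        refine Fin.cases ?_ (fun x => ?_) τ
        · rw [Fin.cons_zero]
          exact hbad
        · rw [Fin.cons_succ]
          exact f3 x
      · intro τ τ' i j i' j'
        refine Fin.cases ?_ (fun x => ?_) τ
        · refine Fin.cases ?_ (fun x' => ?_) τ'
          · intro h5
            exact absurd rfl h5
          · intro _ hij _
            rw [Fin.cons_zero, Fin.cons_succ]
            intro h6
            exact htE i j hij (by rw [h6]; exact hEmem x' i' j')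
        · refine Fin.cases ?_ (fun x' => ?_) τ'
          · intro _ _ hij
            rw [Fin.cons_zero, Fin.cons_succ]
            intro h6
            exact htE i' j' hij (by rw [← h6]; exact hEmem x i j)
          · intro h5 hij hij'
            rw [Fin.cons_succ, Fin.cons_succ]
            exact f4 x x' i j i' j' (fun h6 => h5 (by rw [h6])) hij hij'
    have := hmax _ hfam
    omega

end Pool.Agent.FP
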