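import Pool.Agent.helper76.FP.Spec

set_option autoImplicit false

namespace Pool.Agent.FP

open Finset
open Pool.Agent.FR (mean)

section

variable {J k : ℕ} {EE : Type} [Fintype EE]

/-- the digits below `l` replaced -/
def STL_ov (l : ℕ) (π lam : Fin J → Option EE) : Fin J → Option EE := fun l' => if (l' : ℕ) < l then lam l' else π l'

/-- the maximum over the cluster of level `l` -/
noncomputable def STL_M (a : (Fin J → Option EE) × Fin k → ℝ) (l : ℕ) (i : Fin k) (π : Fin J → Option EE) : ℝ :=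
  Finset.univ.sup' Finset.univ_nonempty (fun lam : Fin J → Option EE => a (STL_ov l π lam, i))

theorem STL_ex (a : (Fin J → Option EE) × Fin k → ℝ) (l : ℕ) (i : Fin k) (π : Fin J → Option EE) : ∃ lam, STL_M a l i π = a (STL_ov l π lam, i) := by
  obtain ⟨lam, _, h⟩ := Finset.exists_mem_eq_sup' Finset.univ_nonempty (fun lam : Fin J → Option EE => a (STL_ov l π lam, i))
  exact ⟨lam, h⟩

theorem STL_le (a : (Fin J → Option EE) × Fin k → ℝ) (l : ℕ) (i : Fin k) (π lam : Fin J → Option EE) : a (STL_ov l π lam, i) ≤ STL_M a l i π :=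
  Finset.le_sup' (fun lam : Fin J → Option EE => a (STL_ov l π lam, i)) (Finset.mem_univ lam)

theorem STL_mono (a : (Fin J → Option EE) × Fin k → ℝ) (l : ℕ) (i : Fin k) (π : Fin J → Option EE) : STL_M a l i π ≤ STL_M a (l + 1) i π := by
  obtain ⟨lam, h⟩ := STL_ex a l i π
  rw [h]
  have h1 : STL_ov l π lam = STL_ov (l + 1) π (STL_ov l π lam) := by
    funext l'
    unfold STL_ov
    by_cases h2 : (l' : ℕ) < l + 1
    · rw [if_pos h2]
    · rw [if_neg h2, if_neg (by omega)]
  rw [h1]
  exact STL_le a (l + 1) i π _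

theorem STL_upd (a : (Fin J → Option EE) × Fin k → ℝ) (l : Fin J) (i : Fin k) (π : Fin J → Option EE) (δ : Option EE) :
    STL_M a ((l : ℕ) + 1) i (Function.update π l δ) = STL_M a ((l : ℕ) + 1) i π := by
  have h1 : ∀ lam, STL_ov ((l : ℕ) + 1) (Function.update π l δ) lam = STL_ov ((l : ℕ) + 1) π lam := by
    intro lam
    funext l'
    unfold STL_ov
    split_ifs with h
    · rfl
    · rw [Function.update_of_ne]
      intro h2
      rw [h2] at h
      omega
  unfold STL_M
  simp_rw [h1]

theorem STL_zero (a : (Fin J → Option EE) × Fin k → ℝ) (i : Fin k) (π : Fin J → Option EE) : STL_M a 0 i π = a (π, i) := by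
  obtain ⟨lam, h⟩ := STL_ex a 0 i π
  rw [h]
  congr 1

theorem STL_01 (a : (Fin J → Option EE) × Fin k → ℝ) (h : ∀ z, 0 ≤ a z ∧ a z ≤ 1) (l : ℕ) (i : Fin k) (π : Fin J → Option EE) : 0 ≤ STL_M a l i π ∧ STL_M a l i π ≤ 1 := by
  obtain ⟨lam, h1⟩ := STL_ex a l i π
  rw [h1]
  exact h _

theorem STL_sum (l : Fin J) (h : (Fin J → Option EE) → ℝ) : ∑ π : Fin J → Option EE, ∑ δ : Option EE, h (Function.update π l δ) = (Fintype.card EE + 1) * ∑ π : Fin J → Option EE, h π := by
  have h1 : Function.Involutive (fun z : (Fin J → Option EE) × Option EE => (Function.update z.1 l z.2, z.1 l)) := by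
    rintro ⟨π, δ⟩
    simp
  have h2 : ∑ z : (Fin J → Option EE) × Option EE, h (Function.update z.1 l z.2) = ∑ z : (Fin J → Option EE) × Option EE, h z.1 :=
    Equiv.sum_comp (h1.toPerm) (fun z : (Fin J → Option EE) × Option EE => h z.1)
  rw [← Fintype.sum_prod_type', h2, Fintype.sum_prod_type, Finset.mul_sum]
  refine Finset.sum_congr rfl fun π _ => ?_
  simp only [sum_const, card_univ, Fintype.card_option, nsmul_eq_mul]
  push_cast
  ring

end

theorem STL : STL_stmt := by
  classical
  intro J k EE _ p q a t hJ hk ht ha hS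
  obtain ⟨S0, hS0⟩ : ∃ S0 : ℝ, S0 = ∑ l : Fin J, ∑ e, ∑ π : Fin J → Option EE, ∑ π', if Fc l e π π' then a (π, p e) * a (π', q e) else 0 := ⟨_, rfl⟩
  obtain ⟨F, hF⟩ : ∃ F : ℕ → ℝ, F = fun l => ∑ π : Fin J → Option EE, ∑ i, STL_M a l i π := ⟨_, rfl⟩
  obtain ⟨N, hN⟩ : ∃ N : ℝ, N = (Fintype.card (Fin J → Option EE) : ℝ) := ⟨_, rfl⟩
  have hN0 : 0 < N := by
    rw [hN]
    exact_mod_cast Fintype.card_pos
  have hk0 : (0 : ℝ) < k := by exact_mod_cast hk
  have hJ0 : (0 : ℝ) < J := by exact_mod_cast hJ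
  have hmono : ∀ l, F l ≤ F (l + 1) := by
    intro l
    rw [hF]
    exact sum_le_sum fun π _ => sum_le_sum fun i _ => STL_mono a l i π
  have hmono0 : ∀ l, F 0 ≤ F l := by
    intro l
    induction l with
    | zero => exact le_rfl
    | succ l ih => exact ih.trans (hmono l)
  have hF0 : 0 ≤ F 0 := by
    rw [hF]
    exact sum_nonneg fun π _ => sum_nonneg fun i _ => (STL_01 a ha _ _ _).1
  have hFJ : F J ≤ k * N := by
    rw [hF, hN]
    calc ∑ π : Fin J → Option EE, ∑ i, STL_M a J i π ≤ ∑ _π : Fin J → Option EE, ∑ _i : Fin k, (1 : ℝ) := sum_le_sum fun π _ => sum_le_sum fun i _ => (STL_01 a ha _ _ _).2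
      _ = k * (Fintype.card (Fin J → Option EE) : ℝ) := by
        simp only [sum_const, card_univ, Fintype.card_fin, nsmul_eq_mul, mul_one]
        ring
  -- the level
  obtain ⟨l, hl⟩ : ∃ l : Fin J, F ((l : ℕ) + 1) - F l ≤ k * N / J := by
    by_contra hcon
    push Not at hcon
    have h1 : ∑ l : Fin J, (k * N / J) < ∑ l : Fin J, (F ((l : ℕ) + 1) - F l) := by
      refine sum_lt_sum_of_nonempty ?_ fun l _ => hcon l
      exact ⟨⟨0, by omega⟩, mem_univ _⟩
    rw [Fin.sum_univ_eq_sum_range (fun l => F (l + 1) - F l) J, sum_range_sub, sum_const, card_univ, Fintype.card_fin, nsmul_eq_mul, mul_div_cancel₀ _ hJ0.ne'] at h1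
    linarith
  obtain ⟨g, hg⟩ : ∃ g : (Fin J → Option EE) → ℝ, g = fun π => ∑ i, ∑ δ, (STL_M a ((l : ℕ) + 1) i π - STL_M a l i (Function.update π l δ)) := ⟨_, rfl⟩
  have hterm : ∀ π i δ, 0 ≤ STL_M a ((l : ℕ) + 1) i π - STL_M a l i (Function.update π l δ) := by
    intro π i δ
    rw [← STL_upd a l i π δ]
    exact sub_nonneg.2 (STL_mono a l i _)
  have hg1 : ∀ π i δ, STL_M a ((l : ℕ) + 1) i π - STL_M a l i (Function.update π l δ) ≤ g π := by
    intro π i δ
    rw [hg]
    refine (single_le_sum (f := fun δ => STL_M a ((l : ℕ) + 1) i π - STL_M a l i (Function.update π l δ)) (fun δ _ => hterm π i δ) (mem_univ δ)).trans ?_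
    exact single_le_sum (f := fun i => ∑ δ, (STL_M a ((l : ℕ) + 1) i π - STL_M a l i (Function.update π l δ))) (fun i _ => sum_nonneg fun δ _ => hterm π i δ) (mem_univ i)
  have hg0 : ∀ π, 0 ≤ g π := by
    intro π
    rw [hg]
    exact sum_nonneg fun i _ => sum_nonneg fun δ _ => hterm π i δ
  have hgs : ∑ π, g π ≤ (Fintype.card EE + 1) * (k * N / J) := by
    have h1 : ∑ π, g π = (Fintype.card EE + 1) * (F ((l : ℕ) + 1) - F l) := by
      have e1 : ∀ π, g π = (Fintype.card EE + 1) * (∑ i, STL_M a ((l : ℕ) + 1) i π) - ∑ δ, ∑ i, STL_M a l i (Function.update π l δ) := by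
        intro π
        rw [hg]
        simp only
        rw [sum_comm (s := (univ : Finset (Option EE))), mul_sum, ← sum_sub_distrib]
        refine sum_congr rfl fun i _ => ?_
        rw [sum_sub_distrib, sum_const, card_univ, Fintype.card_option, nsmul_eq_mul]
        push_cast
        ring
      rw [sum_congr rfl fun π _ => e1 π, sum_sub_distrib, ← mul_sum, STL_sum l (fun π => ∑ i, STL_M a l i π), ← mul_sub, hF]
    rw [h1]
    exact mul_le_mul_of_nonneg_left hl (by positivity)
  have hS00 : 0 ≤ S0 := by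
    rw [hS0]
    refine sum_nonneg fun l _ => sum_nonneg fun e _ => sum_nonneg fun π _ => sum_nonneg fun π' _ => ?_
    split_ifs
    · exact mul_nonneg (ha _).1 (ha _).1
    · exact le_rfl
  -- products
  have hprod : ∀ π e, STL_M a ((l : ℕ) + 1) (p e) π * STL_M a ((l : ℕ) + 1) (q e) π ≤ S0 + 2 * g π := by
    intro π e
    have h1 : STL_M a l (p e) (Function.update π l (some e)) * STL_M a l (q e) (Function.update π l none) ≤ S0 := by
      obtain ⟨lam, h2⟩ := STL_ex a l (p e) (Function.update π l (some e))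
      obtain ⟨lam', h3⟩ := STL_ex a l (q e) (Function.update π l none)
      rw [h2, h3]
      have h4 : Fc l e (STL_ov (l : ℕ) (Function.update π l (some e)) lam) (STL_ov (l : ℕ) (Function.update π l none) lam') := by
        unfold Fc STL_ov
        refine ⟨?_, ?_, fun l' hl' => ?_⟩
        · rw [if_neg (lt_irrefl _), Function.update_self]
        · rw [if_neg (lt_irrefl _), Function.update_self]
        · have h5 : ¬ (l' : ℕ) < l := by
            have : (l : ℕ) < l' := hl'
            omega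
          rw [if_neg h5, if_neg h5, Function.update_of_ne hl'.ne', Function.update_of_ne hl'.ne']
      have hnn : ∀ (l : Fin J) e (π π' : Fin J → Option EE), 0 ≤ (if Fc l e π π' then a (π, p e) * a (π', q e) else 0) := by
        intro l e π π'
        split_ifs
        · exact mul_nonneg (ha _).1 (ha _).1
        · exact le_rfl
      rw [hS0]
      refine le_trans ?_ (single_le_sum (f := fun l : Fin J => ∑ e, ∑ π : Fin J → Option EE, ∑ π', if Fc l e π π' then a (π, p e) * a (π', q e) else 0)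
        (fun l _ => sum_nonneg fun e _ => sum_nonneg fun π _ => sum_nonneg fun π' _ => hnn l e π π') (mem_univ l))
      refine le_trans ?_ (single_le_sum (f := fun e => ∑ π : Fin J → Option EE, ∑ π', if Fc l e π π' then a (π, p e) * a (π', q e) else 0)
        (fun e _ => sum_nonneg fun π _ => sum_nonneg fun π' _ => hnn l e π π') (mem_univ e))
      refine le_trans ?_ (single_le_sum (f := fun π : Fin J → Option EE => ∑ π', if Fc l e π π' then a (π, p e) * a (π', q e) else 0)
        (fun π _ => sum_nonneg fun π' _ => hnn l e π π') (mem_univ (STL_ov (l : ℕ) (Function.update π l (some e)) lam)))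
      refine le_trans ?_ (single_le_sum (f := fun π' : Fin J → Option EE => if Fc l e (STL_ov (l : ℕ) (Function.update π l (some e)) lam) π' then a (STL_ov (l : ℕ) (Function.update π l (some e)) lam, p e) * a (π', q e) else 0)
        (fun π' _ => hnn l e _ π') (mem_univ (STL_ov (l : ℕ) (Function.update π l none) lam')))
      rw [if_pos h4]
    have h2 := hg1 π (p e) (some e)
    have h3 := hg1 π (q e) none
    have h4 := STL_01 a ha ((l : ℕ) + 1) (q e) π
    have h5 := STL_01 a ha (l : ℕ) (p e) (Function.update π l (some e))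
    have h6 := STL_01 a ha ((l : ℕ) + 1) (p e) π
    have h7 := hg0 π
    have h8 : (STL_M a ((l : ℕ) + 1) (p e) π - STL_M a l (p e) (Function.update π l (some e))) * STL_M a ((l : ℕ) + 1) (q e) π ≤ g π := by
      calc _ ≤ g π * 1 := mul_le_mul h2 h4.2 h4.1 h7
        _ = g π := mul_one _
    have h9 : STL_M a l (p e) (Function.update π l (some e)) * (STL_M a ((l : ℕ) + 1) (q e) π - STL_M a l (q e) (Function.update π l none)) ≤ g π := by
      calc _ ≤ 1 * g π := mul_le_mul h5.2 h3 (hterm _ _ _) zero_le_one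
        _ = g π := one_mul _
    linarith
  have ht2 : 0 < t ^ 2 := by positivity
  -- one cluster
  have hcl : ∀ π, ∑ i, STL_M a ((l : ℕ) + 1) i π ≤ k / 4 + t * k + k * ((t ^ 2)⁻¹ * (S0 + 2 * g π)) := by
    intro π
    have h0 : 0 ≤ S0 + 2 * g π := by
      have := hg0 π
      linarith
    by_cases h : S0 + 2 * g π < t ^ 2
    · have h1 := hS (univ.filter fun i => t ≤ STL_M a ((l : ℕ) + 1) i π) (by
        rintro e ⟨h2, h3⟩
        rw [mem_filter] at h2 h3
        have h4 := hprod π e
        have h5 : t * t ≤ STL_M a ((l : ℕ) + 1) (p e) π * STL_M a ((l : ℕ) + 1) (q e) π := mul_le_mul h2.2 h3.2 ht.le (STL_01 a ha _ _ _).1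
        nlinarith)
      have h2 : (#(univ.filter fun i => t ≤ STL_M a ((l : ℕ) + 1) i π) : ℝ) ≤ k / 4 := by
        have : (4 : ℝ) * #(univ.filter fun i => t ≤ STL_M a ((l : ℕ) + 1) i π) ≤ k := by exact_mod_cast h1
        linarith
      have h3 : ∑ i, STL_M a ((l : ℕ) + 1) i π ≤ ∑ i : Fin k, ((if t ≤ STL_M a ((l : ℕ) + 1) i π then 1 else 0) + t) := by
        refine sum_le_sum fun i _ => ?_
        split_ifs with h4
        · have := (STL_01 a ha ((l : ℕ) + 1) i π).2
          linarith
        · have := not_le.1 h4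
          linarith
      rw [sum_add_distrib, sum_const, card_univ, Fintype.card_fin, nsmul_eq_mul, Finset.sum_boole] at h3
      have h4 : 0 ≤ k * ((t ^ 2)⁻¹ * (S0 + 2 * g π)) := by positivity
      linarith
    · have h1 : 1 ≤ (t ^ 2)⁻¹ * (S0 + 2 * g π) := by
        rw [inv_mul_eq_div, le_div_iff₀ ht2, one_mul]
        exact not_lt.1 h
      have h2 : ∑ i, STL_M a ((l : ℕ) + 1) i π ≤ k := by
        calc ∑ i, STL_M a ((l : ℕ) + 1) i π ≤ ∑ _i : Fin k, (1 : ℝ) := sum_le_sum fun i _ => (STL_01 a ha _ _ _).2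
          _ = k := by rw [sum_const, card_univ, Fintype.card_fin, nsmul_eq_mul, mul_one]
      have h3 : (k : ℝ) * 1 ≤ k * ((t ^ 2)⁻¹ * (S0 + 2 * g π)) := mul_le_mul_of_nonneg_left h1 hk0.le
      have h4 : 0 ≤ k / 4 + t * k := by positivity
      linarith
  have hfin : F 0 ≤ N * (k / 4 + t * k) + k * ((t ^ 2)⁻¹ * (N * S0 + 2 * ((Fintype.card EE + 1) * (k * N / J)))) := by
    calc F 0 ≤ F ((l : ℕ) + 1) := hmono0 _
      _ = ∑ π : Fin J → Option EE, ∑ i, STL_M a ((l : ℕ) + 1) i π := by rw [hF]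
      _ ≤ ∑ π : Fin J → Option EE, (k / 4 + t * k + k * ((t ^ 2)⁻¹ * (S0 + 2 * g π))) := sum_le_sum fun π _ => hcl π
      _ = N * (k / 4 + t * k) + k * ((t ^ 2)⁻¹ * (N * S0 + 2 * ∑ π, g π)) := by
        rw [sum_add_distrib, sum_const, card_univ, nsmul_eq_mul, ← mul_sum, ← mul_sum, sum_add_distrib, sum_const, card_univ, nsmul_eq_mul, ← mul_sum, hN]
      _ ≤ _ := by gcongr
  have hmean : mean a = F 0 / (N * k) := by
    unfold mean
    rw [hF, hN, Fintype.card_prod, Fintype.card_fin, Fintype.sum_prod_type]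
    simp only [STL_zero]
    push_cast
    rfl
  rw [hmean, div_le_iff₀ (by positivity)]
  refine hfin.trans (le_of_eq ?_)
  rw [hS0]
  field_simp

end Pool.Agent.FP
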